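import Pool.Agent.H57.S6B.Uep
import Pool.Agent.H36.S6.UhP

/-!
# The local U-step in a class for planes of directions which are not visible, `v > 0`
-/

set_option autoImplicit false

namespace Pool.S6B

/-- **(UEP)** in a class, `v > 0`. -/
theorem uep_pos : UePStmt {v | 0 < v} := uep_of uhp_thm

end Pool.S6B
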