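import Pool.Agent.H72.S6B.OutP

/-!
# The local U-step in a class for planes of directions which are not visible, `v > 0`
-/

set_option autoImplicit false

namespace Pool.S6B

open Finset Real
open Pool.Agent.H49.Ent Pool.Agent.H32.Dense Pool.STK Pool.KA Pool.KA.Win Pool.KA.TRC
  Pool.KSAT Pool.K2S Pool.K2S.Rows Pool.K2S.FF Pool.PB Pool.S6K.Wfe Pool.UST Pool.S6U Pool.S6C

variable {J : ℕ} {F : Fam 3 J} {A : F.Ω → Prop} {σ : Fin 3 → Fin 3} {wl wa wb : ℕ}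
  {vp : ℕ → ℕ} {kap Hu HN : ℕ} {al nu kN nN : (Fin 3 → ℤ) × (ℕ × F.ζ) → ℝ} {a : ℕ → F.Ω → ℝ}
  {s t : F.Ω → ℝ} {B C : ℝ}

theorem UFi.det (h : UFi F A σ wl wa wb vp kap Hu HN al nu kN nN a s t B C) {w : ℕ}
    (h1 : wa ≤ w) (h2 : w ≤ wb) : Det F.p (slam F w) (fun ω => (a w ω, s ω, t ω)) := by
  intro ω ω' hω hω' e
  have e1 := h.slm w h1 h2 ω ω' hω hω' e
  have hlw := h.lw
  have hwJ := h.wJ
  have e2 : slam F wl ω = slam F wl ω' := by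
    rw [slam_coarse F (w := wl) (w' := w) (by omega) (by omega) ω,
      slam_coarse F (w := wl) (w' := w) (by omega) (by omega) ω', e]
  have e3 := h.slp ω ω' hω hω' e2
  have e4 := Prod.ext_iff.mp e3
  exact Prod.ext e1 (Prod.ext e4.1 e4.2)

/-- The rectangle of helper10's theorem. -/
theorem UFi.rc (h : UFi F A σ wl wa wb vp kap Hu HN al nu kN nN a s t B C) (hA : 0 < Pe F.p A)
    {D : ℕ} (hD : vp wb ≤ D) :
    Rc F (Pool.Agent.H49.Ent.cond F.p A True) σ wa wb vp D a s t (fun ω => al (Fam.pt F ω)) := by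
  have hpos : ∀ ω, 0 < Pool.Agent.H49.Ent.cond F.p A True ω → A ω ∧ 0 < F.p ω := by
    intro ω hω
    have := (cond_pos_iff F.isLaw.nonneg A True ω).1 hω
    exact ⟨by simpa using this.2, this.1⟩
  refine ⟨isLaw_cond F.isLaw hA, h.bij.1, h.wJ, h.mono, fun w h1 h2 => ?_, fun w h1 h2 ω hω => ?_,
    fun w h1 h2 ω _ => h.int w h1 h2 ω, fun w h1 h2 ω ω' hω hω' e => ?_⟩
  · exact (h.mono w wb h1 h2 le_rfl).trans hD
  · exact h.near w h1 h2 ω (hpos ω hω).1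
  · exact h.det h1 h2 ω ω' (hpos ω hω).2 (hpos ω' hω').2 e

/-- **(UEP)** in a class, `v > 0`. -/
theorem uep_of (hH : UhPStmt) : UePStmt {v | 0 < v} := by
  intro ε ρ α hε hρ hα
  obtain ⟨x₁, ϖ, δ, ε₁, γ, η, n, d₀, hx₁, hϖ, hϖ1, hδ, hε₁, hγ, hγ1, hη, hn, hd₀, hue⟩ :=
    ueP_out ε (α / 2) ρ hε (by positivity) hρ
  refine ⟨n, γ, x₁, hn, hγ, hγ1, hx₁, fun v hv cw hcw => ?_⟩
  have hv : 0 < v := hv
  obtain ⟨κ₀, hκ₀, h1⟩ := hH x₁ ϖ δ ε₁ γ η α n d₀ hx₁ hϖ hδ hε₁ hγ hη hα hn v cw hv.le hcw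
  refine ⟨κ₀, hκ₀, fun κ hκ hκκ => ?_⟩
  obtain ⟨e₂, e₃, he₂, he₃, h2⟩ := h1 κ hκ hκκ
  refine ⟨e₂, e₃, he₂, he₃, fun M hM S a₁ R i₀ rt act w₀ v₀ q₀ a₀ hS => ?_⟩
  obtain ⟨L₀, hL₀, h3⟩ := h2 M hM S a₁ R i₀ rt act w₀ v₀ q₀ a₀ hS
  refine ⟨L₀, hL₀, fun L B C hL hLL => Clp.mono (J₂ := 0) (h3 L B C hL hLL) ?_⟩
  intro J _ F A hc σ wl wa wb vp kap Hu HN al nu kN nN a s t hU hσ qa qb d D hN hf
  obtain ⟨hA0, hD, hd, hs, hT⟩ :=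
    hc σ wl wa wb vp kap Hu HN al nu kN nN a s t hU hσ qa qb d D hN hf
  obtain ⟨tt, hs⟩ := hs hv
  exact hue F _ σ wa wb vp D a s t _ kap d tt qa qb (hU.rc hA0 hD) hd hs hT

end Pool.S6B
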